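import Pool.Agent.L7h59.NC.Def
import Pool.Agent.Results.MP_6374fb_al.SemilocalK0

/-!
# Part FLD0 of project NC (helper75): fields, `K₀`
-/

set_option autoImplicit false

namespace Pool.Agent.L7h75.NC

open Pool.Agent.Y778.NK Pool.Agent.L7h59.TW Pool.Agent.L7h59.NC
open Pool.Agent.Y778.SL.St (KColim KG KF)

noncomputable section

variable {k N : Type} [Field k] [Group N]

/-- the same colimit with other names -/
def phi : FreeAbelianGroup (Pool.Agent.L7h59.NC.Sym k0 k N) →+ KColim k N :=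
  FreeAbelianGroup.lift fun s =>
    KColim.ι (⟨s.1.1, s.1.2⟩ : Pool.Agent.Y69.FinSub N) (show K0 (MonoidAlgebra k s.1.1) from s.2)

/-- the inverse -/
def psiPre : Pool.Agent.Y778.SL.St.Free k N →+ Pool.Agent.L7h59.NC.Colim k0 k N :=
  FreeAbelianGroup.lift fun s =>
    Pool.Agent.L7h59.NC.cl k0 (⟨s.1.1, s.1.2⟩ : Pool.Agent.Y69.FJ.FinSub N)
      (show K0 (MonoidAlgebra k s.1.1) from s.2)

theorem cl_add (H : Pool.Agent.Y69.FJ.FinSub N) (x y : K0 (MonoidAlgebra k H.1)) :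
    Pool.Agent.L7h59.NC.cl (R := k) k0 H (x + y) = Pool.Agent.L7h59.NC.cl (R := k) k0 H x +
      Pool.Agent.L7h59.NC.cl (R := k) k0 H y := by
  have h : Pool.Agent.L7h59.NC.sym (R := k) k0 H (x + y) -
      (Pool.Agent.L7h59.NC.sym (R := k) k0 H x + Pool.Agent.L7h59.NC.sym (R := k) k0 H y) ∈
      AddSubgroup.closure (Pool.Agent.L7h59.NC.Rel k0 k N) :=
    AddSubgroup.subset_closure (Or.inl ⟨H, x, y, rfl⟩)
  exact sub_eq_zero.1 ((QuotientAddGroup.eq_zero_iff _).2 h)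

theorem cl_conj (g : N) (H L : Pool.Agent.Y69.FJ.FinSub N) (φ : H.1 →* L.1)
    (h : ∀ x : H.1, (φ x : N) = g * x * g⁻¹) (x : K0 (MonoidAlgebra k H.1)) :
    Pool.Agent.L7h59.NC.cl (R := k) k0 L (K0.map (MonoidAlgebra.mapDomainRingHom k φ) x) =
      Pool.Agent.L7h59.NC.cl (R := k) k0 H x := by
  have h : Pool.Agent.L7h59.NC.sym (R := k) k0 L (K0.map (MonoidAlgebra.mapDomainRingHom k φ) x) -
      Pool.Agent.L7h59.NC.sym (R := k) k0 H x ∈ AddSubgroup.closure
      (Pool.Agent.L7h59.NC.Rel k0 k N) :=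
    AddSubgroup.subset_closure (Or.inr ⟨H, L, g, φ, x, h, rfl⟩)
  exact sub_eq_zero.1 ((QuotientAddGroup.eq_zero_iff _).2 h)

theorem psi_aux : AddSubgroup.closure (Pool.Agent.Y778.SL.St.Rel k N) ≤
    (psiPre (k := k) (N := N)).ker := by
  rw [AddSubgroup.closure_le]
  rintro x (⟨H, x, y, rfl⟩ | ⟨H, K, g, φ, x, hφ, rfl⟩)
  · show psiPre _ = 0
    rw [map_sub, map_add, sub_eq_zero]
    simp only [psiPre, Pool.Agent.Y778.SL.St.Free.of]
    erw [FreeAbelianGroup.lift_apply_of, FreeAbelianGroup.lift_apply_of,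
      FreeAbelianGroup.lift_apply_of]
    exact cl_add ⟨H.1, H.2⟩ _ _
  · show psiPre _ = 0
    rw [map_sub, sub_eq_zero]
    simp only [psiPre, Pool.Agent.Y778.SL.St.Free.of]
    erw [FreeAbelianGroup.lift_apply_of, FreeAbelianGroup.lift_apply_of]
    exact cl_conj g ⟨H.1, H.2⟩ ⟨K.1, K.2⟩ φ hφ _

/-- the inverse -/
def psi : KColim k N →+ Pool.Agent.L7h59.NC.Colim k0 k N :=
  QuotientAddGroup.lift _ psiPre psi_aux

theorem psi_phi (z : FreeAbelianGroup (Pool.Agent.L7h59.NC.Sym k0 k N)) :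
    psi (phi z) = (QuotientAddGroup.mk z : Pool.Agent.L7h59.NC.Colim k0 k N) := by
  have h1 : psi.comp phi =
      QuotientAddGroup.mk' (AddSubgroup.closure (Pool.Agent.L7h59.NC.Rel k0 k N)) := by
    apply FreeAbelianGroup.lift_ext
    rintro ⟨H, x⟩
    have h2 : phi (k := k) (N := N) (FreeAbelianGroup.of ⟨H, x⟩) =
        KColim.ι (⟨H.1, H.2⟩ : Pool.Agent.Y69.FinSub N) (show K0 (MonoidAlgebra k H.1) from x) :=
      FreeAbelianGroup.lift_apply_of _ _
    have h3 : psi (phi (k := k) (N := N) (FreeAbelianGroup.of ⟨H, x⟩)) =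
        psiPre (FreeAbelianGroup.of ⟨⟨H.1, H.2⟩, (show K0 (MonoidAlgebra k H.1) from x)⟩) := by
      rw [h2]
      rfl
    refine h3.trans ?_
    exact FreeAbelianGroup.lift_apply_of _ _
  exact DFunLike.congr_fun h1 z

theorem asm_phi (A : KColim k N →+ KG k N)
    (hA : ∀ (H : Pool.Agent.Y69.FinSub N) (x : KF k H), A (KColim.ι H x) = KF.incl H x)
    (z : FreeAbelianGroup (Pool.Agent.L7h59.NC.Sym k0 k N)) :
    A (phi z) = (show KG k N from Pool.Agent.L7h59.NC.asmPre k0 k N z) := by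
  have h1 : A.comp phi = (show FreeAbelianGroup (Pool.Agent.L7h59.NC.Sym k0 k N) →+ KG k N from
      Pool.Agent.L7h59.NC.asmPre k0 k N) := by
    apply FreeAbelianGroup.lift_ext
    rintro ⟨H, x⟩
    show A (phi _) = Pool.Agent.L7h59.NC.asmPre k0 k N _
    unfold phi Pool.Agent.L7h59.NC.asmPre
    rw [FreeAbelianGroup.lift_apply_of, FreeAbelianGroup.lift_apply_of, hA]
    rfl
  exact DFunLike.congr_fun h1 z

/-- part FLD0 -/
theorem s_FLD0 : S_FLD0 := by
  intro k N _ _ z n hn hz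
  obtain ⟨A, hA, hA'⟩ := Pool.Agent.Results.MP_6374fb_al.SemilocalK0.result k N
  have h1 : n • A (phi z) = 0 := by
    rw [asm_phi A hA]
    exact hz
  obtain ⟨l, hl, hl'⟩ := hA' _ ⟨n, hn, h1⟩
  refine ⟨l, hl, ?_⟩
  have h3 : l • psi (phi z) = 0 := by
    have h4 := map_nsmul psi l (phi z)
    rw [hl', map_zero] at h4
    exact h4.symm
  have h5 := psi_phi z
  rw [h5] at h3
  exact h3

end

end Pool.Agent.L7h75.NC
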